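import Pool.Agent.H867R2.Oct4

/-!
Affine surface-area comparison does not imply volume comparison, in every dimension `n ≥ 3`.

`C₂` is the cross-polytope, `C₁` a dilate of the cross-polytope with its vertices truncated.
The comparison of surface areas after an arbitrary invertible affine map is a consequence of
Hlawka's inequality.
-/

set_option maxHeartbeats 1000000

open MeasureTheory Set
open scoped ENNReal NNReal Pointwise

namespace Pool.Agent.Results.MP_8228af_gt.TruncatedCrossPolytope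

open Pool.Agent.H867R2.Oct

/-- A convex body: a compact convex set with nonempty interior. -/
def IsConvexBody {n : ℕ} (K : Set (EuclideanSpace ℝ (Fin n))) : Prop :=
  Convex ℝ K ∧ IsCompact K ∧ (interior K).Nonempty

/-- Central symmetry: some translate `C - x` satisfies `C - x = -(C - x)`. -/
def IsCentrallySymmetric {n : ℕ} (C : Set (EuclideanSpace ℝ (Fin n))) : Prop :=
  ∃ x : EuclideanSpace ℝ (Fin n), (fun y => y - x) '' C = -((fun y => y - x) '' C)

/-- Surface area: the `(n-1)`-dimensional (Euclidean, i.e. normalised) Hausdorff measure of the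
boundary. -/
noncomputable def surfaceArea {n : ℕ} (K : Set (EuclideanSpace ℝ (Fin n))) : ℝ≥0∞ :=
  μHE[n - 1] (frontier K)

/-- `C₂` dominates `C₁` in affine surface area: `S(A C₁) ≤ S(A C₂)` for every nonsingular affine
map `A`. -/
def Dominates {n : ℕ} (C₂ C₁ : Set (EuclideanSpace ℝ (Fin n))) : Prop :=
  ∀ A : EuclideanSpace ℝ (Fin n) ≃ᵃ[ℝ] EuclideanSpace ℝ (Fin n),
    surfaceArea (A '' C₁) ≤ surfaceArea (A '' C₂)

theorem surfaceArea_affine {n : ℕ}
    (A : EuclideanSpace ℝ (Fin n) ≃ᵃ[ℝ] EuclideanSpace ℝ (Fin n))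
    (K : Set (EuclideanSpace ℝ (Fin n))) :
    surfaceArea (A '' K) = μHE[n - 1] (A.linear.toContinuousLinearEquiv '' frontier K) := by
  have h1 : frontier (A '' K) = A '' frontier K := by
    exact (A.toContinuousAffineEquiv.toHomeomorph.image_frontier K).symm
  have h2 : A '' frontier K =
      (fun y => y + A 0) '' (A.linear.toContinuousLinearEquiv '' frontier K) := by
    rw [image_image]
    refine image_congr fun x _ => ?_
    have := A.map_vadd 0 x
    simpa using this
  rw [surfaceArea, h1, h2]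
  exact (IsometryEquiv.addRight (A 0)).isometry.euclideanHausdorffMeasure_image _

theorem surfaceArea_affine_smul {n : ℕ}
    (A : EuclideanSpace ℝ (Fin n) ≃ᵃ[ℝ] EuclideanSpace ℝ (Fin n))
    (K : Set (EuclideanSpace ℝ (Fin n))) (s : ℝ) (hs : 0 < s) :
    surfaceArea (A '' (s • K)) = ENNReal.ofReal (s ^ (n - 1)) *
      μHE[n - 1] (A.linear.toContinuousLinearEquiv '' frontier K) := by
  rw [surfaceArea_affine]
  have h1 : frontier (s • K) = s • frontier K :=
    ((Homeomorph.smulOfNeZero s hs.ne').image_frontier K).symm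
  have h2 : A.linear.toContinuousLinearEquiv '' (s • frontier K)
      = s • (A.linear.toContinuousLinearEquiv '' frontier K) := by
    ext z
    simp only [mem_image, mem_smul_set]
    constructor
    · rintro ⟨_, ⟨y, hy, rfl⟩, rfl⟩
      exact ⟨_, ⟨y, hy, rfl⟩, by simp⟩
    · rintro ⟨_, ⟨y, hy, rfl⟩, rfl⟩
      exact ⟨_, ⟨y, hy, rfl⟩, by simp⟩
  rw [h1, h2, Measure.euclideanHausdorffMeasure_smul₀ _ hs.ne', ENNReal.smul_def, smul_eq_mul,
    ENNReal.coe_pow, ENNReal.ofReal_pow hs.le, ← Real.enorm_of_nonneg hs.le]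
  rfl

/-- **Disproof in every dimension `n ≥ 3`.** There are centrally symmetric convex bodies
`C₁, C₂ ⊂ ℝⁿ` with `S(A C₁) ≤ S(A C₂)` for every nonsingular affine map `A`, but
`Vol C₁ > Vol C₂`. -/
theorem result (n : ℕ) (hn : 3 ≤ n) : ∃ C₁ C₂ : Set (EuclideanSpace ℝ (Fin n)),
    IsConvexBody C₁ ∧ IsConvexBody C₂ ∧ IsCentrallySymmetric C₁ ∧ IsCentrallySymmetric C₂ ∧
    Dominates C₂ C₁ ∧ volume C₂ < volume C₁ := by
  obtain ⟨m, rfl⟩ : ∃ m, n = m + 3 := ⟨n - 3, by omega⟩
  set t : ℝ := 1 / 4 with ht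
  set N : ℝ := ((m + 3 : ℕ) : ℝ) with hN
  have ht0 : 0 < t := by norm_num [ht]
  have htp : 0 < t ^ (m + 2) := by positivity
  have hN0 : 0 < N := by rw [hN]; positivity
  have hNt : N * t ^ (m + 2) ≤ 1 := by
    have h1 : m + 2 < 4 ^ (m + 2) := Nat.lt_pow_self (by norm_num)
    have h2 : ((m + 3 : ℕ) : ℝ) ≤ 4 ^ (m + 2) := by exact_mod_cast h1
    rw [ht, one_div, inv_pow, ← div_eq_mul_inv, div_le_one (by positivity)]
    exact h2
  set a : ℝ := 1 - N / 3 * t ^ (m + 2) with ha
  have ha0 : 0 < a := by rw [ha]; linarith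
  have ha1 : a < 1 := by
    rw [ha]
    have : 0 < N / 3 * t ^ (m + 2) := by positivity
    linarith
  set b : ℝ := 1 - N * t ^ (m + 3) with hb
  have hab : a ≤ b := by
    rw [ha, hb, pow_succ t (m + 2)]
    have : 0 < N * t ^ (m + 2) := by positivity
    rw [ht] at *
    nlinarith
  set s : ℝ := (a⁻¹) ^ (((m + 2 : ℕ) : ℝ)⁻¹) with hs
  have hs0 : 0 < s := Real.rpow_pos_of_pos (inv_pos.2 ha0) _
  have hspow : s ^ (m + 2) = a⁻¹ := Real.rpow_inv_natCast_pow (inv_pos.2 ha0).le (by omega)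
  have hs1 : 1 < s := by
    by_contra hle
    push Not at hle
    have h1 : s ^ (m + 2) ≤ 1 := pow_le_one₀ hs0.le hle
    rw [hspow] at h1
    have h2 : 1 < a⁻¹ := (one_lt_inv₀ ha0).2 ha1
    linarith
  refine ⟨s • Tr (m + 3) t, Oc (m + 3), ⟨(convex_Tr _ _).smul s, (isCompact_Tr _ _).smul s, ?_⟩,
    ⟨convex_Oc _, isCompact_Oc _, ?_⟩, ⟨0, ?_⟩, ⟨0, ?_⟩, ?_, ?_⟩
  · rw [interior_smul₀ hs0.ne']
    exact (interior_Tr_nonempty (m + 3) t (by norm_num [ht])).smul_set
  · exact (interior_Tr_nonempty (m + 3) t (by norm_num [ht])).mono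
      (interior_mono (Tr_subset _ _))
  · simp only [sub_zero, image_id']
    rw [← Set.smul_set_neg, neg_Tr]
  · simp only [sub_zero, image_id']
    rw [neg_Oc]
  · intro A
    rw [surfaceArea_affine_smul A _ s hs0, surfaceArea_affine A]
    have h1 := area_main A.linear.toContinuousLinearEquiv t ht0 (by norm_num [ht]) hNt
    have e : m + 3 - 1 = m + 2 := rfl
    rw [e]
    calc ENNReal.ofReal (s ^ (m + 2)) *
          μHE[m + 2] (A.linear.toContinuousLinearEquiv '' frontier (Tr (m + 3) t))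
        ≤ ENNReal.ofReal (s ^ (m + 2)) * (ENNReal.ofReal a *
          μHE[m + 2] (A.linear.toContinuousLinearEquiv '' frontier (Oc (m + 3)))) := by
          gcongr
      _ = _ := by
          rw [← mul_assoc, ← ENNReal.ofReal_mul (by positivity), hspow, inv_mul_cancel₀ ha0.ne',
            ENNReal.ofReal_one, one_mul]
  · rw [Measure.addHaar_smul]
    simp only [finrank_euclideanSpace, Fintype.card_fin]
    rw [abs_of_pos (by positivity)]
    have hv := volume_main (n := m + 3) t ht0 (by norm_num [ht])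
    have hOtop : volume (Oc (m + 3)) ≠ ⊤ := (isCompact_Oc _).measure_lt_top.ne
    have hTtop : volume (Tr (m + 3) t) ≠ ⊤ := (isCompact_Tr _ _).measure_lt_top.ne
    have hOpos : volume (Oc (m + 3)) ≠ 0 := by
      refine (Measure.measure_pos_of_nonempty_interior volume ?_).ne'
      exact (interior_Tr_nonempty (m + 3) t (by norm_num [ht])).mono
        (interior_mono (Tr_subset _ _))
    obtain ⟨v, hv'⟩ : ∃ v : ℝ≥0, volume (Oc (m + 3)) = v := ⟨_, (ENNReal.coe_toNNReal hOtop).symm⟩
    obtain ⟨u, hu'⟩ : ∃ u : ℝ≥0, volume (Tr (m + 3) t) = u := ⟨_, (ENNReal.coe_toNNReal hTtop).symm⟩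
    rw [hv', hu'] at hv
    rw [hv'] at hOpos
    rw [hv', hu']
    have hvpos : 0 < (v : ℝ) := by
      have : v ≠ 0 := by simpa using hOpos
      exact_mod_cast pos_iff_ne_zero.2 this
    have ev : ((v : ℝ≥0) : ℝ≥0∞) = ENNReal.ofReal (v : ℝ) := by simp
    have eu : ((u : ℝ≥0) : ℝ≥0∞) = ENNReal.ofReal (u : ℝ) := by simp
    rw [ev, eu, ← ENNReal.ofReal_mul (by positivity), ← ENNReal.ofReal_add (by positivity)
      (by positivity), ENNReal.ofReal_le_ofReal_iff (by positivity)] at hv
    rw [ev, eu, ← ENNReal.ofReal_mul (by positivity)]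
    have hb' : b * v ≤ u := by
      rw [hb]; linarith
    have h3 : (v : ℝ) < s ^ (m + 3) * u := by
      have e3 : s ^ (m + 3) = a⁻¹ * s := by rw [pow_succ, hspow]
      have h4 : a * v ≤ u := (mul_le_mul_of_nonneg_right hab hvpos.le).trans hb'
      calc (v : ℝ) < v * s := by nlinarith
        _ = a⁻¹ * s * (a * v) := by field_simp
        _ ≤ a⁻¹ * s * u := by gcongr
        _ = _ := by rw [e3]
    exact (ENNReal.ofReal_lt_ofReal_iff (hvpos.trans h3)).2 h3

end Pool.Agent.Results.MP_8228af_gt.TruncatedCrossPolytope
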